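import Pool.Agent.W_68f289_t6.Dich

/-!
The Calabi dichotomy for the groups of Hamiltonian homeomorphisms and of hameomorphisms of the ball.
-/

open Pool.Agent.W_MP_68f289_gt Pool.Agent.W_68f289_t6

namespace Pool.Agent.Results.MP_68f289_gt.CalabiDichotomy

/-- Let `n ≥ 1`. The Calabi invariant `cal H = ∫∫ H` of a smooth Hamiltonian `H` with compact support
in the open unit ball of `ℝ^{2n}` depends only on the time-one map of its flow. The group `HamBar n`
of Hamiltonian homeomorphisms and the group `Hameo n` of hameomorphisms of the ball contain all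
Hamiltonian diffeomorphisms and consist of homeomorphisms supported in compact subsets of the ball
(`Big`), and with `g` they contain `x ↦ s g(x / s)`, `0 < s ≤ 1` (`Scal`). For each group `L` with
these properties exactly one of the following holds: the Calabi invariant extends to a homomorphism
from `L` to `ℝ` (then `L` is not perfect and not simple), or every nontrivial normal subgroup of `L`
contains Hamiltonian diffeomorphisms of every Calabi invariant. -/
theorem result (n : ℕ) (hn : 1 ≤ n) :
    (∀ (H H' : ℝ → E n → ℝ) (ψ ψ' : ℝ → E n → E n), HIso n H ψ → HIso n H' ψ' →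
      (∀ x, ψ 1 x = ψ' 1 x) → cal H = cal H') ∧
    (Big (HamBar n) ∧ Scal (HamBar n)) ∧ (Big (Hameo n) ∧ Scal (Hameo n)) ∧
    ∀ L : Subgroup (E n ≃ₜ E n), Big L → Scal L →
      Xor (∃ f : Ty L →* Multiplicative ℝ, ExtCal f)
        (∀ N : Subgroup (Ty L), N.Normal → N ≠ ⊥ → AllCal N) := by
  refine ⟨fun H H' ψ ψ' h h' e => cal_unique hn h h' e, ⟨big_HamBar, Scal_of_Hst Hst_HamBar⟩,
    ⟨big_Hameo, Scal_of_Hst Hst_Hameo⟩, fun L hL hs => ?_⟩
  rcases dich hn hL (Hst_of_Scal hs) with h | h
  · exact Or.inl ⟨h, fun h' => excl hn hL h h'⟩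
  · exact Or.inr ⟨h, fun h' => excl hn hL h' h⟩

end Pool.Agent.Results.MP_68f289_gt.CalabiDichotomy
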